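import Pool.Agent.Helper32.LD.StT2

/-!
# LD project, module B2: closed macro walks of length at most five
-/

set_option autoImplicit false

namespace Pool.Agent.Helper70.LD

open Pool.Agent.Helper2.LD Pool.Agent.Helper32.LD

/-- type of an arc: 0 right, 1 down, 2 left, 3 up -/
private def ty {m t : ℕ} (A : BE m t × Bool) : ℕ :=
  (if A.1.1.1 = true then 1 else 0) + (if A.2 = true then 2 else 0)

private def Stp (τ r k r' k' : ℕ) : Prop :=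
  (τ = 0 ∧ r' = r ∧ k' = k + 1) ∨ (τ = 1 ∧ r' = r + 1 ∧ k' = 2 * k) ∨
    (τ = 2 ∧ r' = r ∧ k = k' + 1) ∨ (τ = 3 ∧ r = r' + 1 ∧ k = 2 * k')

private theorem stp {m t : ℕ} (A : BE m t × Bool) :
    Stp (ty A) ((bt m t).src A).1.1 ((bt m t).src A).1.2 ((bt m t).dst A).1.1
      ((bt m t).dst A).1.2 := by
  obtain ⟨⟨⟨d, n, k⟩, h⟩, b⟩ := A
  cases d <;> cases b <;> simp [Stp, ty, MC.src, MC.dst, bt]

private theorem opp {m t : ℕ} (A B : BE m t × Bool) (h : (bt m t).dst A = (bt m t).src B)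
    (ht : ty B = ty A + 2 ∨ ty A = ty B + 2) : B = rev A := by
  obtain ⟨⟨⟨d, n, k⟩, h1⟩, b⟩ := A
  obtain ⟨⟨⟨d', n', k'⟩, h1'⟩, b'⟩ := B
  have h0 : ((bt m t).dst (⟨(d, n, k), h1⟩, b)).1 = ((bt m t).src (⟨(d', n', k'), h1'⟩, b')).1 := by
    rw [h]
  cases d <;> cases b <;> cases d' <;> cases b' <;>
    simp [ty, MC.src, MC.dst, bt, rev] at h0 ht ⊢ <;>
    first
      | (obtain ⟨rfl, rfl⟩ := h0; rfl)
      | exact Prod.ext (Subtype.ext (by simp <;> omega)) rfl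

/-- opposite types -/
private def Op (a b : ℕ) : Prop := b = a + 2 ∨ a = b + 2

private theorem w1 {τ r k : ℕ} (h : Stp τ r k r k) : False := by
  unfold Stp at h; omega

private theorem w2 {τ0 τ1 r0 k0 r1 k1 : ℕ} (h0 : Stp τ0 r0 k0 r1 k1) (h1 : Stp τ1 r1 k1 r0 k0)
    (n0 : ¬ Op τ0 τ1) : False := by
  unfold Stp Op at *; omega

private theorem w3 {τ0 τ1 τ2 r0 k0 r1 k1 r2 k2 : ℕ} (h0 : Stp τ0 r0 k0 r1 k1)
    (h1 : Stp τ1 r1 k1 r2 k2) (h2 : Stp τ2 r2 k2 r0 k0)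
    (n0 : ¬ Op τ0 τ1) (n1 : ¬ Op τ1 τ2) (n2 : ¬ Op τ2 τ0) : False := by
  unfold Stp Op at *; omega

private theorem w4 {τ0 τ1 τ2 τ3 r0 k0 r1 k1 r2 k2 r3 k3 : ℕ} (h0 : Stp τ0 r0 k0 r1 k1)
    (h1 : Stp τ1 r1 k1 r2 k2) (h2 : Stp τ2 r2 k2 r3 k3) (h3 : Stp τ3 r3 k3 r0 k0)
    (n0 : ¬ Op τ0 τ1) (n1 : ¬ Op τ1 τ2) (n2 : ¬ Op τ2 τ3) (n3 : ¬ Op τ3 τ0) : False := by
  unfold Stp Op at *; omega

private theorem w5h {τ r k r' k' : ℕ} (h : Stp τ r k r' k') (c : τ ≠ 1) : r' ≤ r := by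
  unfold Stp at h; omega

private theorem w5i {τ r k r' k' : ℕ} (h : Stp τ r k r' k') (c : τ ≠ 1) (e : r' = r) :
    (τ = 0 ∧ k' = k + 1) ∨ (τ = 2 ∧ k = k' + 1) := by
  unfold Stp at h; omega

/-- there is a step down -/
private theorem w5a {τ0 τ1 τ2 τ3 τ4 r0 k0 r1 k1 r2 k2 r3 k3 r4 k4 : ℕ}
    (h0 : Stp τ0 r0 k0 r1 k1)
    (h1 : Stp τ1 r1 k1 r2 k2) (h2 : Stp τ2 r2 k2 r3 k3) (h3 : Stp τ3 r3 k3 r4 k4)
    (h4 : Stp τ4 r4 k4 r0 k0)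
    (n0 : ¬ Op τ0 τ1) (n1 : ¬ Op τ1 τ2) (n2 : ¬ Op τ2 τ3) (n3 : ¬ Op τ3 τ4) :
    τ0 = 1 ∨ τ1 = 1 ∨ τ2 = 1 ∨ τ3 = 1 ∨ τ4 = 1 := by
  by_contra hc
  push Not at hc
  obtain ⟨c0, c1, c2, c3, c4⟩ := hc
  have a0 := w5h h0 c0
  have a1 := w5h h1 c1
  have a2 := w5h h2 c2
  have a3 := w5h h3 c3
  have a4 := w5h h4 c4
  have b0 := w5i h0 c0 (by omega)
  have b1 := w5i h1 c1 (by omega)
  have b2 := w5i h2 c2 (by omega)
  have b3 := w5i h3 c3 (by omega)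
  have b4 := w5i h4 c4 (by omega)
  unfold Op at *
  rcases b0 with b0 | b0
  · have e1 : τ1 = 0 := by omega
    have e2 : τ2 = 0 := by omega
    have e3 : τ3 = 0 := by omega
    omega
  · have e1 : τ1 = 2 := by omega
    have e2 : τ2 = 2 := by omega
    have e3 : τ3 = 2 := by omega
    omega

private theorem w5b {τ1 τ2 τ3 τ4 r0 k0 r1 k1 r2 k2 r3 k3 r4 k4 : ℕ}
    (h0 : Stp 1 r0 k0 r1 k1)
    (h1 : Stp τ1 r1 k1 r2 k2) (h2 : Stp τ2 r2 k2 r3 k3) (h3 : Stp τ3 r3 k3 r4 k4)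
    (h4 : Stp τ4 r4 k4 r0 k0)
    (n0 : ¬ Op 1 τ1) (n1 : ¬ Op τ1 τ2) (n2 : ¬ Op τ2 τ3) (n3 : ¬ Op τ3 τ4) (n4 : ¬ Op τ4 1) :
    (τ1 = 2 ∧ τ2 = 2 ∧ τ3 = 3 ∧ τ4 = 0) ∨ (τ1 = 0 ∧ τ2 = 0 ∧ τ3 = 3 ∧ τ4 = 2) := by
  unfold Stp Op at *
  rcases h1 with ⟨rfl, e1, f1⟩ | ⟨rfl, e1, f1⟩ | ⟨rfl, e1, f1⟩ | ⟨rfl, e1, f1⟩
  all_goals try (exfalso; omega)
  all_goals rcases h2 with ⟨rfl, e2, f2⟩ | ⟨rfl, e2, f2⟩ | ⟨rfl, e2, f2⟩ | ⟨rfl, e2, f2⟩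
  all_goals try (exfalso; omega)
  all_goals rcases h3 with ⟨rfl, e3, f3⟩ | ⟨rfl, e3, f3⟩ | ⟨rfl, e3, f3⟩ | ⟨rfl, e3, f3⟩
  all_goals try (exfalso; omega)
  all_goals rcases h4 with ⟨rfl, e4, f4⟩ | ⟨rfl, e4, f4⟩ | ⟨rfl, e4, f4⟩ | ⟨rfl, e4, f4⟩
  all_goals first
    | (exfalso; omega)
    | omega

private theorem src_rev {X E F : Type} (C : MC X E F) (A : E × Bool) :
    C.src (rev A) = C.dst A := by
  obtain ⟨a, b⟩ := A
  cases b <;> simp [MC.src, MC.dst, rev]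

private theorem dst_rev {X E F : Type} (C : MC X E F) (A : E × Bool) :
    C.dst (rev A) = C.src A := by
  obtain ⟨a, b⟩ := A
  cases b <;> simp [MC.src, MC.dst, rev]

private theorem arcs {m t : ℕ} (f : BF m t) :
    (((bt m t).src ((bt m t).arc f 0)).1 = (f.1.1, f.1.2) ∧
      ((bt m t).dst ((bt m t).arc f 0)).1 = (f.1.1, f.1.2 + 1)) ∧
    (((bt m t).src ((bt m t).arc f 1)).1 = (f.1.1, f.1.2 + 1) ∧
      ((bt m t).dst ((bt m t).arc f 1)).1 = (f.1.1 + 1, 2 * f.1.2 + 2)) ∧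
    (((bt m t).src ((bt m t).arc f 2)).1 = (f.1.1 + 1, 2 * f.1.2 + 2) ∧
      ((bt m t).dst ((bt m t).arc f 2)).1 = (f.1.1 + 1, 2 * f.1.2 + 1)) ∧
    (((bt m t).src ((bt m t).arc f 3)).1 = (f.1.1 + 1, 2 * f.1.2 + 1) ∧
      ((bt m t).dst ((bt m t).arc f 3)).1 = (f.1.1 + 1, 2 * f.1.2)) ∧
    (((bt m t).src ((bt m t).arc f 4)).1 = (f.1.1 + 1, 2 * f.1.2) ∧
      ((bt m t).dst ((bt m t).arc f 4)).1 = (f.1.1, f.1.2)) := by
  have a0 : (bt m t).arc f 0 = (⟨(false, f.1.1, f.1.2), f.2.1.le, f.2.2.le, fun _ => f.2.2,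
    fun h => by simp at h⟩, false) := rfl
  have a1 : (bt m t).arc f 1 = (⟨(true, f.1.1, f.1.2 + 1), f.2.1.le, f.2.2,
    fun h => by simp at h, fun _ => f.2.1⟩, false) := rfl
  have a2 : (bt m t).arc f 2 = (⟨(false, f.1.1 + 1, 2 * f.1.2 + 1), f.2.1,
    (pow_dbl1 _ _ _ f.2.2).le, fun _ => pow_dbl1 _ _ _ f.2.2, fun h => by simp at h⟩, true) := rfl
  have a3 : (bt m t).arc f 3 = (⟨(false, f.1.1 + 1, 2 * f.1.2), f.2.1,
    (pow_dbl0 _ _ _ f.2.2).le, fun _ => pow_dbl0 _ _ _ f.2.2, fun h => by simp at h⟩, true) := rfl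
  have a4 : (bt m t).arc f 4 = (⟨(true, f.1.1, f.1.2), f.2.1.le, f.2.2.le,
    fun h => by simp at h, fun _ => f.2.1⟩, true) := rfl
  rw [a0, a1, a2, a3, a4]
  refine ⟨⟨?_, ?_⟩, ⟨?_, ?_⟩, ⟨?_, ?_⟩, ⟨?_, ?_⟩, ⟨?_, ?_⟩⟩ <;>
    simp [MC.src, MC.dst, bt] <;> try ring

private theorem perio {α : Type} (P : ℕ → α) (Q : ZMod 5 → α) (j0 : ℕ)
    (hP : ∀ j, P (j + 5) = P j) (h : ∀ i < 5, P (j0 + i) = Q (i : ZMod 5)) (j : ℕ) :
    P j = Q (-(j0 : ZMod 5) + (j : ZMod 5)) := by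
  have hp : Function.Periodic P 5 := hP
  have h1 := h ((j + 4 * j0) % 5) (Nat.mod_lt _ (by norm_num))
  have h2 : P (j0 + (j + 4 * j0) % 5) = P j := by
    rw [← hp.map_mod_nat (j0 + (j + 4 * j0) % 5), ← hp.map_mod_nat j]
    congr 1
    omega
  rw [← h2, h1]
  congr 1
  rw [ZMod.natCast_mod]
  push_cast
  have h3 : (4 : ZMod 5) = -1 := by decide
  rw [h3]
  ring

theorem tB2 (hB1 : StB1) : StB2 := by
  intro m t hm ht n A hn1 hn5 hper hcomp hnb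
  have hB := hB1 m t hm ht
  obtain ⟨R, hR⟩ : ∃ R : ℕ → ℕ, ∀ j, R j = ((bt m t).src (A j)).1.1 := ⟨_, fun _ => rfl⟩
  obtain ⟨K, hK⟩ : ∃ K : ℕ → ℕ, ∀ j, K j = ((bt m t).src (A j)).1.2 := ⟨_, fun _ => rfl⟩
  obtain ⟨T, hT⟩ : ∃ T : ℕ → ℕ, ∀ j, T j = ty (A j) := ⟨_, fun _ => rfl⟩
  have hs : ∀ j, Stp (T j) (R j) (K j) (R (j + 1)) (K (j + 1)) := by
    intro j
    have := stp (A j)
    rw [hcomp j] at this
    rw [hR, hK, hT, hR, hK]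
    exact this
  have ho : ∀ j, ¬ Op (T j) (T (j + 1)) := by
    intro j h
    rw [hT, hT] at h
    exact hnb j (opp _ _ (hcomp j) h)
  have pR : ∀ j, R (j + n) = R j := fun j => by rw [hR, hR, hper]
  have pK : ∀ j, K (j + n) = K j := fun j => by rw [hK, hK, hper]
  have pT : ∀ j, T (j + n) = T j := fun j => by rw [hT, hT, hper]
  have hn : n = 5 := by
    by_contra hne
    have h4 : n = 1 ∨ n = 2 ∨ n = 3 ∨ n = 4 := by omega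
    rcases h4 with rfl | rfl | rfl | rfl
    · have a := hs 0
      rw [pR 0, pK 0] at a
      exact w1 a
    · have a := hs 0
      have b := hs 1
      have c := ho 0
      rw [show (1 + 1 : ℕ) = 0 + 2 from rfl, pR 0, pK 0] at b
      exact w2 a b c
    · have a := hs 0
      have b := hs 1
      have c := hs 2
      have a' := ho 0
      have b' := ho 1
      have c' := ho 2
      rw [show (2 + 1 : ℕ) = 0 + 3 from rfl, pR 0, pK 0] at c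
      rw [show (2 + 1 : ℕ) = 0 + 3 from rfl, pT 0] at c'
      exact w3 a b c a' b' c'
    · have a := hs 0
      have b := hs 1
      have c := hs 2
      have d := hs 3
      have a' := ho 0
      have b' := ho 1
      have c' := ho 2
      have d' := ho 3
      rw [show (3 + 1 : ℕ) = 0 + 4 from rfl, pR 0, pK 0] at d
      rw [show (3 + 1 : ℕ) = 0 + 4 from rfl, pT 0] at d'
      exact w4 a b c d a' b' c' d'
  subst hn
  refine ⟨rfl, ?_⟩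
  obtain ⟨j1, hj1⟩ : ∃ j1, T j1 = 1 := by
    have e := hs 4
    rw [show (4 + 1 : ℕ) = 0 + 5 from rfl, pR 0, pK 0] at e
    rcases w5a (hs 0) (hs 1) (hs 2) (hs 3) e (ho 0) (ho 1) (ho 2) (ho 3) with h | h | h | h | h
    exacts [⟨_, h⟩, ⟨_, h⟩, ⟨_, h⟩, ⟨_, h⟩, ⟨_, h⟩]
  have e0 := hs j1
  have e1 := hs (j1 + 1)
  have e2 := hs (j1 + 1 + 1)
  have e3 := hs (j1 + 1 + 1 + 1)
  have e4 := hs (j1 + 1 + 1 + 1 + 1)
  rw [show (j1 + 1 + 1 + 1 + 1 + 1 : ℕ) = j1 + 5 from rfl, pR, pK] at e4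
  have o0 := ho j1
  have o1 := ho (j1 + 1)
  have o2 := ho (j1 + 1 + 1)
  have o3 := ho (j1 + 1 + 1 + 1)
  have o4 := ho (j1 + 1 + 1 + 1 + 1)
  rw [show (j1 + 1 + 1 + 1 + 1 + 1 : ℕ) = j1 + 5 from rfl, pT] at o4
  rw [hj1] at e0 o0 o4
  have hw := w5b e0 e1 e2 e3 e4 o0 o1 o2 o3 o4
  -- the coordinates
  have hv : ∀ j, ((bt m t).src (A j)).1 = (R j, K j) := fun j => by rw [hR, hK]
  have hrow : ∀ j, R j ≤ t := fun j => by rw [hR]; exact ((bt m t).src (A j)).2.1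
  have hcol : ∀ j, K j ≤ m * 2 ^ R j := fun j => by
    rw [hR, hK]; exact ((bt m t).src (A j)).2.2
  rcases hw with ⟨t1, t2, t3, t4⟩ | ⟨t1, t2, t3, t4⟩
  · -- right, down, left, left, up from j0 = j1 + 4
    rw [t1] at e1
    rw [t2] at e2
    rw [t3] at e3
    rw [t4] at e4
    obtain ⟨a, ha⟩ : ∃ a, R (j1 + 1 + 1 + 1 + 1) = a := ⟨_, rfl⟩
    obtain ⟨b, hb⟩ : ∃ b, K (j1 + 1 + 1 + 1 + 1) = b := ⟨_, rfl⟩
    unfold Stp at e0 e1 e2 e3 e4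
    have g0 : R j1 = a ∧ K j1 = b + 1 := by omega
    have g1 : R (j1 + 1) = a + 1 ∧ K (j1 + 1) = 2 * b + 2 := by omega
    have g2 : R (j1 + 1 + 1) = a + 1 ∧ K (j1 + 1 + 1) = 2 * b + 1 := by omega
    have g3 : R (j1 + 1 + 1 + 1) = a + 1 ∧ K (j1 + 1 + 1 + 1) = 2 * b := by omega
    have q1 : a < t := by have := hrow (j1 + 1); omega
    have q2 : b < m * 2 ^ a := by have := hcol j1; rw [g0.1, g0.2] at this; omega
    set f : BF m t := ⟨(a, b), q1, q2⟩ with hf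
    obtain ⟨⟨c0, d0⟩, ⟨c1, d1⟩, ⟨c2, d2⟩, ⟨c3, d3⟩, ⟨c4, d4⟩⟩ := arcs f
    refine ⟨f, -((j1 + 4 : ℕ) : ZMod 5), Or.inl fun j => ?_⟩
    refine perio A (fun x => (bt m t).arc f x) (j1 + 4) hper (fun i hi => ?_) j
    have key : ∀ (j : ℕ) (x : ZMod 5), ((bt m t).src ((bt m t).arc f x)).1 = (R j, K j) →
        ((bt m t).dst ((bt m t).arc f x)).1 = (R (j + 1), K (j + 1)) →
        A j = (bt m t).arc f x := by
      intro j x hx hy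
      apply hB.simp
      · apply Subtype.ext; rw [hx, hv]
      · apply Subtype.ext; rw [hy, hcomp, hv]
    interval_cases i
    · refine key (j1 + 4) _ ?_ ?_
      · rw [Nat.cast_zero, c0, show j1 + 4 = j1 + 1 + 1 + 1 + 1 from rfl, ha, hb]
      · rw [Nat.cast_zero, d0, show j1 + 4 + 1 = j1 + 5 from rfl, pR, pK, g0.1, g0.2]
    · refine key (j1 + 4 + 1) _ ?_ ?_
      · rw [Nat.cast_one, c1, show j1 + 4 + 1 = j1 + 5 from rfl, pR, pK, g0.1, g0.2]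
      · rw [Nat.cast_one, d1, show j1 + 4 + 1 + 1 = j1 + 1 + 5 from by ring, pR, pK, g1.1, g1.2]
    · refine key (j1 + 4 + 2) _ ?_ ?_
      · rw [show ((2 : ℕ) : ZMod 5) = 2 from rfl, c2, show j1 + 4 + 2 = j1 + 1 + 5 from by ring,
          pR, pK, g1.1, g1.2]
      · rw [show ((2 : ℕ) : ZMod 5) = 2 from rfl, d2,
          show j1 + 4 + 2 + 1 = j1 + 1 + 1 + 5 from by ring, pR, pK, g2.1, g2.2]
    · refine key (j1 + 4 + 3) _ ?_ ?_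
      · rw [show ((3 : ℕ) : ZMod 5) = 3 from rfl, c3,
          show j1 + 4 + 3 = j1 + 1 + 1 + 5 from by ring, pR, pK, g2.1, g2.2]
      · rw [show ((3 : ℕ) : ZMod 5) = 3 from rfl, d3,
          show j1 + 4 + 3 + 1 = j1 + 1 + 1 + 1 + 5 from by ring, pR, pK, g3.1, g3.2]
    · refine key (j1 + 4 + 4) _ ?_ ?_
      · rw [show ((4 : ℕ) : ZMod 5) = 4 from rfl, c4,
          show j1 + 4 + 4 = j1 + 1 + 1 + 1 + 5 from by ring, pR, pK, g3.1, g3.2]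
      · rw [show ((4 : ℕ) : ZMod 5) = 4 from rfl, d4,
          show j1 + 4 + 4 + 1 = j1 + 1 + 1 + 1 + 1 + 5 from by ring, pR, pK, ha, hb]
  · -- left, down, right, right, up from j0 = j1 + 4
    rw [t1] at e1
    rw [t2] at e2
    rw [t3] at e3
    rw [t4] at e4
    obtain ⟨a, ha⟩ : ∃ a, R j1 = a := ⟨_, rfl⟩
    obtain ⟨b, hb⟩ : ∃ b, K j1 = b := ⟨_, rfl⟩
    unfold Stp at e0 e1 e2 e3 e4
    have g0 : R (j1 + 1 + 1 + 1 + 1) = a ∧ K (j1 + 1 + 1 + 1 + 1) = b + 1 := by omega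
    have g1 : R (j1 + 1) = a + 1 ∧ K (j1 + 1) = 2 * b := by omega
    have g2 : R (j1 + 1 + 1) = a + 1 ∧ K (j1 + 1 + 1) = 2 * b + 1 := by omega
    have g3 : R (j1 + 1 + 1 + 1) = a + 1 ∧ K (j1 + 1 + 1 + 1) = 2 * b + 2 := by omega
    have q1 : a < t := by have := hrow (j1 + 1); omega
    have q2 : b < m * 2 ^ a := by
      have := hcol (j1 + 1 + 1 + 1 + 1); rw [g0.1, g0.2] at this; omega
    set f : BF m t := ⟨(a, b), q1, q2⟩ with hf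
    obtain ⟨⟨c0, d0⟩, ⟨c1, d1⟩, ⟨c2, d2⟩, ⟨c3, d3⟩, ⟨c4, d4⟩⟩ := arcs f
    refine ⟨f, ((j1 + 4 : ℕ) : ZMod 5), Or.inr fun j => ?_⟩
    have hfin := perio A (fun x => rev ((bt m t).arc f (-x))) (j1 + 4) hper (fun i hi => ?_) j
    · rw [hfin]
      congr 2
      ring
    have key : ∀ (j : ℕ) (x y : ZMod 5), -x = y →
        ((bt m t).dst ((bt m t).arc f y)).1 = (R j, K j) →
        ((bt m t).src ((bt m t).arc f y)).1 = (R (j + 1), K (j + 1)) →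
        A j = rev ((bt m t).arc f (-x)) := by
      intro j x y hxy hx hy
      rw [hxy]
      apply hB.simp
      · apply Subtype.ext; rw [src_rev, hx, hv]
      · apply Subtype.ext; rw [dst_rev, hy, hcomp, hv]
    interval_cases i
    · refine key (j1 + 4) _ 0 (by simp) ?_ ?_
      · rw [d0, show j1 + 4 = j1 + 1 + 1 + 1 + 1 from rfl, g0.1, g0.2]
      · rw [c0, show j1 + 4 + 1 = j1 + 5 from rfl, pR, pK, ha, hb]
    · refine key (j1 + 4 + 1) _ 4 (by decide) ?_ ?_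
      · rw [d4, show j1 + 4 + 1 = j1 + 5 from rfl, pR, pK, ha, hb]
      · rw [c4, show j1 + 4 + 1 + 1 = j1 + 1 + 5 from by ring, pR, pK, g1.1, g1.2]
    · refine key (j1 + 4 + 2) _ 3 (by decide) ?_ ?_
      · rw [d3, show j1 + 4 + 2 = j1 + 1 + 5 from by ring, pR, pK, g1.1, g1.2]
      · rw [c3, show j1 + 4 + 2 + 1 = j1 + 1 + 1 + 5 from by ring, pR, pK, g2.1, g2.2]
    · refine key (j1 + 4 + 3) _ 2 (by decide) ?_ ?_
      · rw [d2, show j1 + 4 + 3 = j1 + 1 + 1 + 5 from by ring, pR, pK, g2.1, g2.2]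
      · rw [c2, show j1 + 4 + 3 + 1 = j1 + 1 + 1 + 1 + 5 from by ring, pR, pK, g3.1, g3.2]
    · refine key (j1 + 4 + 4) _ 1 (by decide) ?_ ?_
      · rw [d1, show j1 + 4 + 4 = j1 + 1 + 1 + 1 + 5 from by ring, pR, pK, g3.1, g3.2]
      · rw [c1, show j1 + 4 + 4 + 1 = j1 + 1 + 1 + 1 + 1 + 5 from by ring, pR, pK, g0.1, g0.2]

end Pool.Agent.Helper70.LD
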